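import Pool.Agent.Helper63.XP.StB

/-!
# OPX: the calculus of `OpLe`
-/

set_option autoImplicit false

namespace Pool.Agent.Helper29.XP

open Pool.Agent.Helper63.XP

open scoped BigOperators

theorem npO_nonneg {J : Type} [Fintype J] (p : ℝ) (f : J → ℂ) : 0 ≤ np p f :=
  Finset.sum_nonneg fun _ _ => Real.rpow_nonneg (norm_nonneg _) _

theorem npO_add {J : Type} [Fintype J] {p : ℝ} (hp : 1 ≤ p) (f g : J → ℂ) :
    np p (f + g) ^ (1 / p) ≤ np p f ^ (1 / p) + np p g ^ (1 / p) := by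
  have hp0 : 0 ≤ p := le_trans zero_le_one hp
  have h1 : np p (f + g) ≤ ∑ j, (‖f j‖ + ‖g j‖) ^ p := by
    apply Finset.sum_le_sum
    intro j _
    exact Real.rpow_le_rpow (norm_nonneg _) (norm_add_le _ _) hp0
  have h2 := Real.Lp_add_le_of_nonneg (s := (Finset.univ : Finset J)) (f := fun j => ‖f j‖)
    (g := fun j => ‖g j‖) hp (fun i _ => norm_nonneg _) (fun i _ => norm_nonneg _)
  refine le_trans (Real.rpow_le_rpow (npO_nonneg p _) h1 (by positivity)) ?_
  exact h2

theorem rootO_iff {m n : Type} [Fintype m] [Fintype n] {p : ℝ} (hp : 1 ≤ p) (A : Matrix m n ℂ) {a : ℝ}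
    (ha : 0 ≤ a) :
    OpLe p A a ↔ ∀ v : n → ℂ, np p (A.mulVec v) ^ (1 / p) ≤ a * np p v ^ (1 / p) := by
  have hp0 : 0 < p := lt_of_lt_of_le zero_lt_one hp
  have hne : p ≠ 0 := hp0.ne'
  unfold OpLe
  refine forall_congr' fun v => ?_
  constructor
  · intro h
    have h1 := Real.rpow_le_rpow (npO_nonneg p _) h (z := 1 / p) (by positivity)
    rw [Real.mul_rpow (Real.rpow_nonneg ha _) (npO_nonneg p _), ← Real.rpow_mul ha,
      mul_one_div_cancel hne, Real.rpow_one] at h1
    exact h1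
  · intro h
    have h1 := Real.rpow_le_rpow (Real.rpow_nonneg (npO_nonneg p _) _) h (z := p) hp0.le
    rw [Real.mul_rpow ha (Real.rpow_nonneg (npO_nonneg p _) _), ← Real.rpow_mul (npO_nonneg p _),
      ← Real.rpow_mul (npO_nonneg p _), one_div_mul_cancel hne, Real.rpow_one, Real.rpow_one] at h1
    exact h1

theorem opO_add {m n : Type} [Fintype m] [Fintype n] {p : ℝ} (hp : 1 ≤ p) (A B : Matrix m n ℂ) (a b : ℝ)
    (ha : 0 ≤ a) (hb : 0 ≤ b) (hA : OpLe p A a) (hB : OpLe p B b) : OpLe p (A + B) (a + b) := by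
  rw [rootO_iff hp A ha] at hA
  rw [rootO_iff hp B hb] at hB
  rw [rootO_iff hp (A + B) (add_nonneg ha hb)]
  intro v
  rw [Matrix.add_mulVec]
  refine le_trans (npO_add hp _ _) ?_
  have h1 := hA v
  have h2 := hB v
  rw [add_mul]
  exact add_le_add h1 h2

theorem opO_mul {m n l : Type} [Fintype m] [Fintype n] [Fintype l] {p : ℝ} (A : Matrix m n ℂ)
    (B : Matrix n l ℂ) (a b : ℝ) (ha : 0 ≤ a) (hb : 0 ≤ b) (hA : OpLe p A a) (hB : OpLe p B b) :
    OpLe p (A * B) (a * b) := by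
  intro v
  rw [← Matrix.mulVec_mulVec, Real.mul_rpow ha hb, mul_assoc]
  refine le_trans (hA _) ?_
  exact mul_le_mul_of_nonneg_left (hB v) (Real.rpow_nonneg ha _)

theorem opO_one {m : Type} [Fintype m] [DecidableEq m] (p : ℝ) : OpLe p (1 : Matrix m m ℂ) 1 := by
  intro v
  rw [Matrix.one_mulVec, Real.one_rpow, one_mul]

theorem opO_neg {m n : Type} [Fintype m] [Fintype n] {p : ℝ} (A : Matrix m n ℂ) (a : ℝ)
    (hA : OpLe p A a) : OpLe p (-A) a := by
  intro v
  rw [Matrix.neg_mulVec]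
  have h : np p (-(A.mulVec v)) = np p (A.mulVec v) := by
    unfold np
    refine Finset.sum_congr rfl fun j _ => ?_
    rw [Pi.neg_apply, norm_neg]
  rw [h]
  exact hA v

theorem opO_mono {m n : Type} [Fintype m] [Fintype n] {p : ℝ} (hp : 1 ≤ p) (A : Matrix m n ℂ) (a b : ℝ)
    (ha : 0 ≤ a) (hab : a ≤ b) (hA : OpLe p A a) : OpLe p A b := by
  intro v
  refine le_trans (hA v) ?_
  exact mul_le_mul_of_nonneg_right (Real.rpow_le_rpow ha hab (le_trans zero_le_one hp))
    (npO_nonneg p v)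

theorem opO_abs {m n : Type} [Fintype m] [Fintype n] {p : ℝ} (A : Matrix m n ℂ) (a : ℝ)
    (hA : OpLe p A a) : OpLe p A |a| := by
  intro v
  refine le_trans (hA v) ?_
  refine mul_le_mul_of_nonneg_right ?_ (npO_nonneg p v)
  exact le_trans (le_abs_self _) (Real.abs_rpow_le_abs_rpow a p)

theorem opO_sub {m n : Type} [Fintype m] [Fintype n] {p : ℝ} (e : m ≃ n) (A : Matrix n n ℂ) (a : ℝ)
    (hA : OpLe p A a) : OpLe p (A.submatrix e e) a := by
  intro v
  rw [Matrix.submatrix_mulVec_equiv]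
  have h1 : np p ((A.mulVec (v ∘ e.symm)) ∘ e) = np p (A.mulVec (v ∘ e.symm)) := by
    unfold np
    exact Equiv.sum_comp e (fun j => ‖(A.mulVec (v ∘ e.symm)) j‖ ^ p)
  have h2 : np p (v ∘ e.symm) = np p v := by
    unfold np
    exact Equiv.sum_comp e.symm (fun j => ‖v j‖ ^ p)
  have h3 := hA (v ∘ e.symm)
  rw [h2] at h3
  rw [h1]
  exact h3

theorem opO_oneNorm {m : Type} [Fintype m] [DecidableEq m] (A : Matrix m m ℂ) (a : ℝ) :
    OpLe 1 A a ↔ ∀ j, ∑ i, ‖A i j‖ ≤ a := by
  constructor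
  · intro h j
    have h1 := h (Pi.single j 1)
    have h2 : np 1 (A.mulVec (Pi.single j 1)) = ∑ i, ‖A i j‖ := by
      unfold np
      refine Finset.sum_congr rfl fun i _ => ?_
      rw [Matrix.mulVec_single_one, Real.rpow_one]
      rfl
    have h3 : np 1 (Pi.single j 1 : m → ℂ) = 1 := by
      unfold np
      rw [Finset.sum_eq_single j]
      · rw [Pi.single_eq_same, norm_one, Real.rpow_one]
      · intro b _ hb
        rw [Pi.single_eq_of_ne hb, norm_zero, Real.rpow_one]
      · intro hj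
        exact absurd (Finset.mem_univ j) hj
    rw [h2, h3, Real.rpow_one, mul_one] at h1
    exact h1
  · intro h v
    rw [Real.rpow_one]
    unfold np
    simp only [Real.rpow_one]
    calc ∑ i, ‖A.mulVec v i‖ ≤ ∑ i, ∑ j, ‖A i j‖ * ‖v j‖ := by
          refine Finset.sum_le_sum fun i _ => ?_
          refine le_trans (norm_sum_le _ _) (le_of_eq ?_)
          refine Finset.sum_congr rfl fun j _ => ?_
          rw [norm_mul]
      _ = ∑ j, (∑ i, ‖A i j‖) * ‖v j‖ := by
          rw [Finset.sum_comm]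
          refine Finset.sum_congr rfl fun j _ => ?_
          rw [Finset.sum_mul]
      _ ≤ ∑ j, a * ‖v j‖ := by
          refine Finset.sum_le_sum fun j _ => ?_
          exact mul_le_mul_of_nonneg_right (h j) (norm_nonneg _)
      _ = a * ∑ j, ‖v j‖ := by rw [Finset.mul_sum]

theorem hOPX : StOpx := by
  intro p hp
  refine ⟨?_, ?_, ?_, ?_, ?_, ?_, ?_, ?_⟩
  · intro m n _ _ A B a b ha hb hA hB
    exact opO_add hp A B a b ha hb hA hB
  · intro m n l _ _ _ A B a b ha hb hA hB
    exact opO_mul A B a b ha hb hA hB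
  · intro m _ _
    exact opO_one p
  · intro m n _ _ A a hA
    exact opO_neg A a hA
  · intro m n _ _ A a b ha hab hA
    exact opO_mono hp A a b ha hab hA
  · intro m n _ _ A a hA
    exact opO_abs A a hA
  · intro m n _ _ e A a hA
    exact opO_sub e A a hA
  · intro m _ _ A a _
    exact opO_oneNorm A a

end Pool.Agent.Helper29.XP
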